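import Pool.Agent.N463.MI.Fin

/-!
# Parity difference of missing-integer counts versus distinct-part partitions (MP_781ce4_nt)

For every `n > 10` the difference of the numbers of partitions of `n` with an even and with an odd
number of missing integers is smaller than the number of partitions of `n` into distinct parts.
-/

set_option autoImplicit false

namespace Pool.Agent.Results.MP_781ce4_nt.BelowDistinct

/-- The number of missing integers of a partition `p` of `n`: the integers `i ≥ 1` smaller than
the largest part of `p` that are not parts of `p`. -/
def missing {n : ℕ} (p : n.Partition) : ℕ :=
  ((Finset.Ico 1 (p.parts.toFinset.sup id)).filter (fun i => i ∉ p.parts)).card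

/-- The number of partitions of `n` with an even number of missing integers. -/
def evenCount (n : ℕ) : ℕ := (Finset.univ.filter (fun p : n.Partition => Even (missing p))).card

/-- The number of partitions of `n` with an odd number of missing integers. -/
def oddCount (n : ℕ) : ℕ := (Finset.univ.filter (fun p : n.Partition => Odd (missing p))).card

/-- The number of partitions of `n` into distinct parts. -/
def distinctCount (n : ℕ) : ℕ := (Finset.univ.filter (fun p : n.Partition => p.parts.Nodup)).card

/-- For every `n > 10` the number of partitions of `n` with an even number of missing integers
minus the number of those with an odd number is smaller than the number of partitions of `n` into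
distinct parts. -/
theorem result : ∀ n : ℕ, 10 < n →
    (evenCount n : ℤ) - (oddCount n : ℤ) < (distinctCount n : ℤ) :=
  Pool.Agent.N463.MI.diff_lt_distinct

end Pool.Agent.Results.MP_781ce4_nt.BelowDistinct
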